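import Pool.Agent.Helper10.Fam.Stmts

set_option autoImplicit false

namespace Pool.Agent.Helper10.Fam

open Pool.Agent.Helper10.Lor
open scoped BigOperators

section
variable (D : Dat) (β : Fin D.n → E D.n)

theorem alph_lt {i : ℕ} (h : i < D.n) : alp D β i = (0, 0, β ⟨i, h⟩) := by
  unfold alp; rw [dif_pos h]

theorem alph_n : alp D β D.n = (0, -1, -∑ j : Fin D.n, (D.w0.getD j 0 : ℝ) • β j) := by
  unfold alp; rw [dif_neg (lt_irrefl _), if_pos rfl]

theorem alph_n1 : alp D β (D.n + 1) = (-1, 1, 0) := by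
  unfold alp
  rw [dif_neg (by omega), if_neg (by omega)]

theorem alph_symm {n : ℕ} (x y : LV n) : form x y = form y x := by
  unfold form
  rw [real_inner_comm]; ring

theorem alph_add {n : ℕ} (x y z : LV n) : form (x + y) z = form x z + form y z := by
  unfold form
  simp only [Prod.fst_add, Prod.snd_add, inner_add_left]; ring

theorem alph_smul {n : ℕ} (k : ℝ) (x z : LV n) : form (k • x) z = k * form x z := by
  unfold form
  simp only [Prod.smul_fst, Prod.smul_snd, inner_smul_left, smul_eq_mul, conj_trivial]; ring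

theorem alph_neg {n : ℕ} (x z : LV n) : form (-x) z = -form x z := by
  unfold form
  simp only [Prod.fst_neg, Prod.snd_neg, inner_neg_left]; ring

theorem alph_zero {n : ℕ} (z : LV n) : form (0 : LV n) z = 0 := by
  unfold form
  simp

theorem alph_sum {n : ℕ} {ι : Type*} (s : Finset ι) (f : ι → LV n) (z : LV n) :
    form (∑ i ∈ s, f i) z = ∑ i ∈ s, form (f i) z := by
  classical
  induction s using Finset.induction_on with
  | empty => simp [alph_zero]
  | insert a s ha ih => rw [Finset.sum_insert ha, Finset.sum_insert ha, alph_add, ih]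

variable {D β}

/-- `⟨β_i, θ⟩ = G_{i,n}` -/
theorem alph_theta (hD : DOK D) (hB : IsBase D β) (i : Fin D.n) :
    inner ℝ (β i) (∑ j : Fin D.n, (D.w0.getD j 0 : ℝ) • β j) = (ent D.G i D.n : ℝ) := by
  have h1 := hD.null i (by omega)
  have h2 : ∑ k ∈ Finset.range (D.n + 2), ent D.G i k * D.w0.getD k 0
      = ∑ k : Fin D.n, ent D.G i k * D.w0.getD k 0 + ent D.G i D.n := by
    rw [Finset.sum_range_succ, Finset.sum_range_succ, hD.w0a, hD.w0b, Finset.sum_range]
    ring
  rw [h2] at h1
  have h3 : ((∑ k : Fin D.n, ent D.G i k * D.w0.getD k 0 + ent D.G i D.n : ℕ) : ℝ)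
      = ((2 * D.w0.getD i 0 : ℕ) : ℝ) := by rw [h1]
  push_cast at h3
  rw [inner_sum]
  have h4 : ∀ j : Fin D.n, inner ℝ (β i) ((D.w0.getD j 0 : ℝ) • β j)
      = (if i = j then 2 * (D.w0.getD j 0 : ℝ) else 0) - (ent D.G i j : ℝ) * (D.w0.getD j 0 : ℝ) := by
    intro j
    rw [inner_smul_right, hB i j]
    split_ifs with h
    · subst h
      rw [hD.diagG i (by omega)]; push_cast; ring
    · ring
  rw [Finset.sum_congr rfl fun j _ => h4 j, Finset.sum_sub_distrib,
    Finset.sum_ite_eq Finset.univ i (fun j => 2 * (D.w0.getD j 0 : ℝ)), if_pos (Finset.mem_univ _)]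
  linarith

theorem alph_theta2 (hD : DOK D) (hB : IsBase D β) :
    inner ℝ (∑ j : Fin D.n, (D.w0.getD j 0 : ℝ) • β j)
      (∑ j : Fin D.n, (D.w0.getD j 0 : ℝ) • β j) = 2 := by
  rw [sum_inner]
  have h4 : ∀ i : Fin D.n, inner ℝ ((D.w0.getD i 0 : ℝ) • β i)
      (∑ j : Fin D.n, (D.w0.getD j 0 : ℝ) • β j) = (ent D.G D.n i : ℝ) * (D.w0.getD i 0 : ℝ) := by
    intro i
    rw [real_inner_smul_left, alph_theta hD hB, hD.symG i (by omega) D.n (by omega)]
    ring
  rw [Finset.sum_congr rfl fun i _ => h4 i]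
  have h1 := hD.null D.n (by omega)
  rw [Finset.sum_range_succ, Finset.sum_range_succ, hD.w0a, hD.w0b, Finset.sum_range,
    hD.diagG D.n (by omega)] at h1
  have h3 : ((∑ k : Fin D.n, ent D.G D.n k * D.w0.getD k 0 + 0 * 1 + ent D.G D.n (D.n + 1) * 0 : ℕ) : ℝ)
      = ((2 * 1 : ℕ) : ℝ) := by rw [h1]
  push_cast at h3
  linarith

theorem alph_form (hD : DOK D) (hB : IsBase D β) : ∀ i < D.n + 2,
    ∀ j < D.n + 2, form (alp D β i) (alp D β j) = (if i = j then (2 : ℝ) else 0) - ent D.G i j := by
  have key : ∀ i < D.n + 2, ∀ j < D.n + 2, i ≤ j →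
      form (alp D β i) (alp D β j) = (if i = j then (2 : ℝ) else 0) - ent D.G i j := by
    intro i hi j hj hij
    rcases Nat.lt_or_ge i D.n with h | h
    · rw [alph_lt D β h]
      rcases Nat.lt_or_ge j D.n with h' | h'
      · rw [alph_lt D β h']
        have := hB ⟨i, h⟩ ⟨j, h'⟩
        simp only [form, this, Fin.mk.injEq]
        split_ifs with e
        · subst e
          rw [hD.diagG i hi]; simp
        · ring
      · rcases Nat.eq_or_lt_of_le h' with e | e
        · subst e
          rw [alph_n]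
          have := alph_theta hD hB ⟨i, h⟩
          simp only [form, inner_neg_right, this]
          rw [if_neg (by omega)]; ring
        · have e' : j = D.n + 1 := by omega
          subst e'
          rw [alph_n1, if_neg (by omega), hD.aff0 i h]
          simp [form]
    · rcases Nat.eq_or_lt_of_le h with e | e
      · subst e
        rcases Nat.eq_or_lt_of_le hij with e' | e'
        · subst e'
          rw [alph_n, if_pos rfl, hD.diagG D.n (by omega)]
          simp only [form, inner_neg_neg, alph_theta2 hD hB]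
          push_cast; ring
        · have e'' : j = D.n + 1 := by omega
          subst e''
          rw [alph_n, alph_n1, if_neg (by omega), hD.aff]
          simp [form]
      · have e' : i = D.n + 1 := by omega
        have e'' : j = D.n + 1 := by omega
        subst e'; subst e''
        rw [alph_n1, if_pos rfl, hD.diagG _ (by omega)]
        simp only [form, inner_zero_right]
        push_cast; ring
  intro i hi j hj
  rcases le_total i j with h | h
  · exact key i hi j hj h
  · rw [alph_symm, key j hj i hi h, hD.symG i hi j hj]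
    congr 1
    simp only [eq_comm]

theorem alph_rv_form (hD : DOK D) (hB : IsBase D β) (m : ℕ → ℝ) :
    ∀ j < D.n + 2, form (rv D β m) (alp D β j)
      = -2 * m j + ∑ i ∈ Finset.range (D.n + 2), (ent D.G i j : ℝ) * m i := by
  intro j hj
  unfold rv
  rw [alph_neg, alph_sum]
  have h1 : ∀ i ∈ Finset.range (D.n + 2), form (m i • alp D β i) (alp D β j)
      = (if i = j then 2 * m j else 0) - (ent D.G i j : ℝ) * m i := by
    intro i hi
    rw [alph_smul, alph_form hD hB i (Finset.mem_range.mp hi) j hj]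
    split_ifs with h
    · subst h; ring
    · ring
  rw [Finset.sum_congr rfl h1, Finset.sum_sub_distrib, Finset.sum_ite_eq' (Finset.range (D.n + 2)) j
    (fun _ => 2 * m j), if_pos (Finset.mem_range.mpr hj)]
  ring

theorem alph_mat (hD : DOK D) : ∀ i < D.n + 2, ∀ j < D.n + 2,
    ∑ k ∈ Finset.range (D.n + 2), (ent D.H i k : ℝ) * (ent D.G k j : ℝ)
      = 2 * (ent D.H i j : ℝ) + if i = j then (D.d : ℝ) else 0 := by
  intro i hi j hj
  have h := hD.mat i hi j hj
  have h3 : ((∑ k ∈ Finset.range (D.n + 2), ent D.H i k * ent D.G k j : ℕ) : ℝ)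
      = ((2 * ent D.H i j + if i = j then D.d else 0 : ℕ) : ℝ) := by rw [h]
  push_cast at h3
  exact h3

/-- the matrix identity `H (G - 2) = d` on vectors -/
theorem alph_inv (hD : DOK D) (c : ℕ → ℝ) : ∀ l < D.n + 2,
    ∑ j ∈ Finset.range (D.n + 2), (ent D.H l j : ℝ)
      * (-2 * c j + ∑ i ∈ Finset.range (D.n + 2), (ent D.G i j : ℝ) * c i) = D.d * c l := by
  intro l hl
  have h1 : ∀ j ∈ Finset.range (D.n + 2), (ent D.H l j : ℝ)
      * (-2 * c j + ∑ i ∈ Finset.range (D.n + 2), (ent D.G i j : ℝ) * c i)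
      = -2 * ((ent D.H l j : ℝ) * c j)
        + ∑ i ∈ Finset.range (D.n + 2), ((ent D.H l j : ℝ) * (ent D.G j i : ℝ)) * c i := by
    intro j hj
    rw [mul_add, Finset.mul_sum]
    congr 1
    · ring
    · refine Finset.sum_congr rfl fun i hi => ?_
      rw [hD.symG i (Finset.mem_range.mp hi) j (Finset.mem_range.mp hj)]; ring
  rw [Finset.sum_congr rfl h1, Finset.sum_add_distrib, Finset.sum_comm, ← Finset.mul_sum]
  have h2 : ∀ i ∈ Finset.range (D.n + 2), ∑ j ∈ Finset.range (D.n + 2),
      ((ent D.H l j : ℝ) * (ent D.G j i : ℝ)) * c i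
      = 2 * ((ent D.H l i : ℝ) * c i) + if l = i then (D.d : ℝ) * c l else 0 := by
    intro i hi
    rw [← Finset.sum_mul, alph_mat hD l hl i (Finset.mem_range.mp hi)]
    split_ifs with h
    · subst h; ring
    · ring
  rw [Finset.sum_congr rfl h2, Finset.sum_add_distrib, ← Finset.mul_sum,
    Finset.sum_ite_eq (Finset.range (D.n + 2)) l (fun _ => (D.d : ℝ) * c l),
    if_pos (Finset.mem_range.mpr hl)]
  ring

theorem alph_inj (hD : DOK D) (hB : IsBase D β) (m m' : ℕ → ℝ) (h : rv D β m = rv D β m') :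
    ∀ i < D.n + 2, m i = m' i := by
  intro l hl
  have hd : (D.d : ℝ) ≠ 0 := by exact_mod_cast hD.dpos.ne'
  have h1 := alph_inv hD m l hl
  have h2 := alph_inv hD m' l hl
  have h3 : ∀ j ∈ Finset.range (D.n + 2), (ent D.H l j : ℝ)
      * (-2 * m j + ∑ i ∈ Finset.range (D.n + 2), (ent D.G i j : ℝ) * m i)
      = (ent D.H l j : ℝ)
      * (-2 * m' j + ∑ i ∈ Finset.range (D.n + 2), (ent D.G i j : ℝ) * m' i) := by
    intro j hj
    rw [← alph_rv_form hD hB m j (Finset.mem_range.mp hj), h,
      alph_rv_form hD hB m' j (Finset.mem_range.mp hj)]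
  rw [Finset.sum_congr rfl h3, h2] at h1
  exact (mul_left_cancel₀ hd h1).symm

theorem alph_li (hD : DOK D) (hB : IsBase D β) : LinearIndependent ℝ β := by
  rw [Fintype.linearIndependent_iff]
  intro g hg i
  let m : ℕ → ℝ := fun k => if h : k < D.n then g ⟨k, h⟩ else 0
  have h1 : rv D β m = rv D β (fun _ => 0) := by
    unfold rv
    congr 1
    rw [Finset.sum_range_succ, Finset.sum_range_succ, Finset.sum_range]
    have h2 : ∀ k : Fin D.n, m k • alp D β k = (0, 0, g k • β k) := by
      intro k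
      rw [alph_lt D β k.2]
      simp only [m, k.2, dif_pos, Fin.eta]
      refine Prod.ext ?_ (Prod.ext ?_ ?_) <;> simp
    rw [Finset.sum_congr rfl fun k _ => h2 k]
    have h3 : ∑ k : Fin D.n, ((0 : ℝ), (0 : ℝ), g k • β k) = (0, 0, 0) := by
      refine Prod.ext ?_ (Prod.ext ?_ ?_)
      · simp [Prod.fst_sum]
      · simp [Prod.snd_sum, Prod.fst_sum]
      · simp only [Prod.snd_sum]
        exact hg
    rw [h3]
    simp [m]
  have h4 := alph_inj hD hB m _ h1 i (by omega)
  simpa [m, i.2] using h4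

theorem alph_zero_of (hD : DOK D) (hB : IsBase D β) (u : LV D.n)
    (h : ∀ i < D.n + 2, form u (alp D β i) = 0) : u = 0 := by
  obtain ⟨a, b, x⟩ := u
  have h1 := h (D.n + 1) (by omega)
  have h2 := h D.n (by omega)
  rw [alph_n1] at h1
  rw [alph_n] at h2
  have hx : ∀ i : Fin D.n, inner ℝ x (β i) = 0 := by
    intro i
    have := h i (by omega)
    rw [alph_lt D β i.2] at this
    simpa [form] using this
  have hth : inner ℝ x (∑ j : Fin D.n, (D.w0.getD j 0 : ℝ) • β j) = 0 := by
    rw [inner_sum]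
    refine Finset.sum_eq_zero fun j _ => ?_
    rw [inner_smul_right, hx]; ring
  simp only [form, inner_zero_right, inner_neg_right, hth] at h1 h2
  have hx0 : x = 0 := by
    have hspan : Submodule.span ℝ (Set.range β) = ⊤ := by
      refine (alph_li hD hB).span_eq_top_of_card_eq_finrank' ?_
      simp
    have hxm : x ∈ Submodule.span ℝ (Set.range β) := by rw [hspan]; trivial
    have : inner ℝ x x = 0 := by
      have key : ∀ y ∈ Submodule.span ℝ (Set.range β), inner ℝ x y = 0 := by
        intro y hy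
        induction hy using Submodule.span_induction with
        | mem y hy => obtain ⟨i, rfl⟩ := hy; exact hx i
        | zero => simp
        | add y z _ _ h1 h2 => rw [inner_add_right, h1, h2, add_zero]
        | smul k y _ h1 => rw [inner_smul_right, h1, mul_zero]
      exact key x hxm
    exact inner_self_eq_zero.mp this
  have ha : a = 0 := by linarith
  have hb : b = 0 := by linarith
  rw [ha, hb, hx0]; rfl

theorem alph_rep (hD : DOK D) (hB : IsBase D β) (v : LV D.n) :
    v = rv D β (fun i => ∑ k ∈ Finset.range (D.n + 2),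
      (ent D.H i k : ℝ) * form v (alp D β k) / D.d) := by
  have hd : (D.d : ℝ) ≠ 0 := by exact_mod_cast hD.dpos.ne'
  rw [← sub_eq_zero]
  refine alph_zero_of hD hB _ fun j hj => ?_
  rw [sub_eq_add_neg, alph_add, alph_neg, alph_rv_form hD hB _ j hj]
  have e1 : ∑ i ∈ Finset.range (D.n + 2), (ent D.G i j : ℝ) * ∑ k ∈ Finset.range (D.n + 2),
      (ent D.H i k : ℝ) * form v (alp D β k) / D.d
      = ∑ k ∈ Finset.range (D.n + 2), (2 * (ent D.H k j : ℝ) + if k = j then (D.d : ℝ) else 0)
        * (form v (alp D β k) / D.d) := by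
    have : ∀ i ∈ Finset.range (D.n + 2), (ent D.G i j : ℝ) * ∑ k ∈ Finset.range (D.n + 2),
      (ent D.H i k : ℝ) * form v (alp D β k) / D.d = ∑ k ∈ Finset.range (D.n + 2),
      ((ent D.H k i : ℝ) * (ent D.G i j : ℝ)) * (form v (alp D β k) / D.d) := by
      intro i hi
      rw [Finset.mul_sum]
      refine Finset.sum_congr rfl fun k hk => ?_
      rw [hD.symH i (Finset.mem_range.mp hi) k (Finset.mem_range.mp hk)]
      ring
    rw [Finset.sum_congr rfl this, Finset.sum_comm]
    refine Finset.sum_congr rfl fun k hk => ?_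
    rw [← Finset.sum_mul, alph_mat hD k (Finset.mem_range.mp hk) j hj]
  have e2 : ∀ k ∈ Finset.range (D.n + 2),
      (2 * (ent D.H k j : ℝ) + if k = j then (D.d : ℝ) else 0) * (form v (alp D β k) / D.d)
      = 2 * ((ent D.H j k : ℝ) * form v (alp D β k) / D.d)
        + if k = j then form v (alp D β j) else 0 := by
    intro k hk
    rw [hD.symH k (Finset.mem_range.mp hk) j hj]
    split_ifs with h
    · subst h; field_simp
    · ring
  rw [e1, Finset.sum_congr rfl e2, Finset.sum_add_distrib, ← Finset.mul_sum,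
    Finset.sum_ite_eq' (Finset.range (D.n + 2)) j (fun _ => form v (alp D β j)),
    if_pos (Finset.mem_range.mpr hj)]
  ring

variable (β) in
theorem alph_w0 (hD : DOK D) : wv D β D.w0 = w0 := by
  unfold wv rv
  rw [Finset.sum_range_succ, Finset.sum_range_succ, Finset.sum_range]
  have h2 : ∀ k : Fin D.n, fn D.w0 k • alp D β k
      = ((0 : ℝ), (0 : ℝ), (D.w0.getD k 0 : ℝ) • β k) := by
    intro k
    rw [alph_lt D β k.2]
    simp only [fn, Fin.eta]
    refine Prod.ext ?_ (Prod.ext ?_ ?_) <;> simp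
  rw [Finset.sum_congr rfl fun k _ => h2 k]
  have h3 : ∑ k : Fin D.n, ((0 : ℝ), (0 : ℝ), (D.w0.getD k 0 : ℝ) • β k)
      = (0, 0, ∑ j : Fin D.n, (D.w0.getD j 0 : ℝ) • β j) := by
    refine Prod.ext ?_ (Prod.ext ?_ ?_)
    · simp [Prod.fst_sum]
    · simp [Prod.snd_sum, Prod.fst_sum]
    · simp only [Prod.snd_sum]
  have h4 : fn D.w0 D.n = 1 := by unfold fn; rw [hD.w0b]; simp
  have h5 : fn D.w0 (D.n + 1) = 0 := by unfold fn; rw [hD.w0a]; simp
  rw [h3, h4, h5, alph_n]
  unfold w0
  refine Prod.ext ?_ (Prod.ext ?_ ?_) <;> simp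

end

theorem st_ALPH : ST_ALPH where
  form_alp := fun _ _ hD hB => alph_form hD hB
  rv_form := fun _ _ hD hB m => alph_rv_form hD hB m
  rep := fun _ _ hD hB v => alph_rep hD hB v
  inj := fun _ _ hD hB m m' h => alph_inj hD hB m m' h
  wv_w0 := fun _ β hD => alph_w0 β hD

end Pool.Agent.Helper10.Fam
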